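import Pool.Agent.MP_db5b97_nt.H85.Spec

/-! Dirichlet series of periodic functions of mean zero are bounded. -/

namespace Pool.Agent.MP_db5b97_nt.H36

open H85 NumberField NumberField.InfinitePlace NumberField.Units NumberField.mixedEmbedding
  NumberField.mixedEmbedding.fundamentalCone NumberField.Units.dirichletUnitTheorem

variable {K : Type} [Field K] [NumberField K]

/-- logarithms of the absolute values -/
noncomputable def lv (x : 𝓞 K) : InfinitePlace K → ℝ := fun w => w.mult * Real.log (w (x : K))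

/-- coordinates of the logarithms -/
noncomputable def co (x : 𝓞 K) : InfinitePlace K → ℝ := (completeBasis K).equivFun (lv x)

/-- a product over the coordinates -/
noncomputable def ps (f : ℝ → ℝ) (x : 𝓞 K) : ℝ := ∏ i : Fin (rank K), f (co x (equivFinRank i).1)

omit [NumberField K] in
theorem place_pos {x : 𝓞 K} (hx : x ≠ 0) (w : InfinitePlace K) : 0 < w (x : K) :=
  pos_iff.2 (RingOfIntegers.coe_ne_zero_iff.2 hx)

theorem co_mul {x y : 𝓞 K} (hx : x ≠ 0) (hy : y ≠ 0) : co (x * y) = co x + co y := by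
  rw [co, co, co, ← map_add]
  congr 1
  ext w
  simp only [lv, Pi.add_apply, map_mul]
  rw [Real.log_mul (place_pos hx w).ne' (place_pos hy w).ne', mul_add]

/-- the coordinates of a unit -/
noncomputable def cu (j : InfinitePlace K) : (𝓞 K)ˣ →* Multiplicative ℝ where
  toFun u := Multiplicative.ofAdd (co (u : 𝓞 K) j)
  map_one' := by
    have : lv (1 : 𝓞 K) = 0 := by ext w; simp [lv]
    simp [co, this]
  map_mul' u v := by
    rw [Units.val_mul, co_mul u.ne_zero v.ne_zero, Pi.add_apply, ofAdd_add]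

theorem co_unit (ζ : torsion K) (e : Fin (rank K) → ℤ) (i : Fin (rank K)) :
    co ((ζ.1 * ∏ j, fundSystem K j ^ e j : (𝓞 K)ˣ) : 𝓞 K) (equivFinRank i).1 = e i := by
  classical
  have h0 : co ((ζ.1 : (𝓞 K)ˣ) : 𝓞 K) = 0 := by
    have : lv ((ζ.1 : (𝓞 K)ˣ) : 𝓞 K) = 0 := by
      ext w
      simp [lv, (mem_torsion K).1 ζ.2 w]
    simp [co, this]
  have h1 : ∀ j, co ((fundSystem K j : (𝓞 K)ˣ) : 𝓞 K) (equivFinRank i).1 =
      if j = i then 1 else 0 := by
    intro j
    have : lv ((fundSystem K j : (𝓞 K)ˣ) : 𝓞 K) = completeBasis K (equivFinRank j).1 := by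
      ext w
      rw [completeBasis_apply_of_ne, expMap_symm_apply, normAtAllPlaces_mixedEmbedding,
        Equiv.symm_apply_apply]
      rfl
    rw [co, this, Module.Basis.equivFun_self]
    simp [Subtype.val_inj]
  have h : (cu (equivFinRank i).1 (ζ.1 * ∏ j, fundSystem K j ^ e j)).toAdd = e i := by
    rw [map_mul, map_prod, toAdd_mul, toAdd_prod]
    simp only [map_zpow, toAdd_zpow]
    simp [cu, h0, h1]
  exact h

theorem hasSum_unit {f : ℝ → ℝ} {κ : ℝ} (h0 : ∀ t, f t ≠ 0 → -1 ≤ t ∧ t < 1)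
    (h1 : ∀ t, 0 ≤ t → t < 1 → f t + f (t - 1) = κ) {x : 𝓞 K} (hx : x ≠ 0) :
    HasSum (fun u : (𝓞 K)ˣ => ps f ((u : 𝓞 K) * x)) (Nat.card (torsion K) * κ ^ rank K) := by
  classical
  have := Fintype.ofFinite (torsion K)
  let E : torsion K × (Fin (rank K) → ℤ) ≃ (𝓞 K)ˣ :=
    Equiv.ofBijective (fun p => p.1.1 * ∏ j, fundSystem K j ^ p.2 j)
      ⟨fun p q h => (exist_unique_eq_mul_prod K _).unique rfl h,
        fun u => (exist_unique_eq_mul_prod K u).exists.imp fun _ h => h.symm⟩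
  let t : Fin (rank K) → ℝ := fun i => co x (equivFinRank i).1
  have e : (fun u : (𝓞 K)ˣ => ps f ((u : 𝓞 K) * x)) ∘ E = fun p => ∏ i, f (p.2 i + t i) := by
    ext p
    simp only [Function.comp, ps, E, Equiv.ofBijective_apply]
    refine Finset.prod_congr rfl fun i _ => ?_
    rw [co_mul (Units.ne_zero _) hx, Pi.add_apply, co_unit]
  rw [← E.hasSum_iff, e]
  convert hasSum_sum_of_ne_finset_zero (s := Finset.univ ×ˢ
    Fintype.piFinset fun i => ({-⌊t i⌋, -⌊t i⌋ - 1} : Finset ℤ)) ?_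
  · rw [Finset.sum_product]
    simp only [Finset.sum_const, Finset.card_univ, nsmul_eq_mul, Nat.card_eq_fintype_card]
    rw [← Finset.prod_univ_sum (fun i => ({-⌊t i⌋, -⌊t i⌋ - 1} : Finset ℤ))
      fun i m => f (m + t i)]
    congr 1
    rw [Finset.prod_congr rfl (g := fun _ => κ), Finset.prod_const, Finset.card_univ,
      Fintype.card_fin]
    intro i _
    rw [Finset.sum_pair (by omega), ← h1 _ (Int.fract_nonneg (t i)) (Int.fract_lt_one _), Int.fract]
    push_cast
    congr 2 <;> ring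
  · intro p hp
    by_contra h
    refine hp (Finset.mem_product.2 ⟨Finset.mem_univ _, Fintype.mem_piFinset.2 fun i => ?_⟩)
    obtain ⟨a, b⟩ := h0 _ (Finset.prod_ne_zero_iff.1 h i (Finset.mem_univ _))
    have a' : -1 - p.2 i ≤ ⌊t i⌋ := Int.le_floor.2 (by push_cast; linarith)
    have b' : ⌊t i⌋ < 1 - p.2 i := Int.floor_lt.2 (by push_cast; linarith)
    simp only [Finset.mem_insert, Finset.mem_singleton]
    omega
  · infer_instance

omit [NumberField K] in
theorem hasSum_fiber {ψ : 𝓞 K → ℝ} {c : ℝ} (h0 : ∀ x, 0 ≤ ψ x)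
    (hψ : ∀ x : 𝓞 K, x ≠ 0 → HasSum (fun u : (𝓞 K)ˣ => ψ (u * x)) c) {h : Ideal (𝓞 K) → ℂ}
    (hs : Summable h) (hp : ∀ I, ¬ I.IsPrincipal → h I = 0) (hb : h ⊥ = 0) :
    HasSum (fun x => h (Ideal.span {x}) * ψ x) ((∑' I, h I) * c) := by
  have key : ∀ I, h I ≠ 0 → HasSum (fun x : {x : 𝓞 K // Ideal.span {x} = I} => ψ x) c := by
    intro I hI
    obtain ⟨a, rfl⟩ : ∃ a : 𝓞 K, I = Ideal.span {a} := by
      by_contra hn
      exact hI (hp I fun ⟨a, ha⟩ => hn ⟨a, ha⟩)
    have ha : a ≠ 0 := by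
      rintro rfl
      exact hI (by simpa using hb)
    let E : (𝓞 K)ˣ ≃ {x : 𝓞 K // Ideal.span {x} = Ideal.span {a}} :=
      Equiv.ofBijective (fun u => ⟨u * a, Ideal.span_singleton_mul_left_unit u.isUnit a⟩)
        ⟨fun u v e => Units.ext (mul_right_cancel₀ ha (congrArg Subtype.val e)), fun x => by
          obtain ⟨u, hu⟩ := (Ideal.span_singleton_eq_span_singleton.1 x.2).symm
          exact ⟨u, Subtype.ext (by rw [← hu, mul_comm])⟩⟩
    exact E.hasSum_iff.1 (hψ a ha)
  have k1 : ∀ I, HasSum (fun x : {x : 𝓞 K // Ideal.span {x} = I} => h I * ψ x) (h I * c) := by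
    intro I
    by_cases hI : h I = 0
    · simp [hI]
    · exact (Complex.hasSum_ofReal.2 (key I hI)).mul_left _
  have k2 : ∀ I, HasSum (fun x : {x : 𝓞 K // Ideal.span {x} = I} => ‖h I‖ * ψ x) (‖h I‖ * c) := by
    intro I
    by_cases hI : h I = 0
    · simp [hI]
    · exact (key I hI).mul_left _
  rw [← (Equiv.sigmaFiberEquiv fun x : 𝓞 K => Ideal.span {x}).hasSum_iff]
  have e : (fun x => h (Ideal.span {x}) * ψ x) ∘
      (Equiv.sigmaFiberEquiv fun x : 𝓞 K => Ideal.span {x}) = fun p => h p.1 * ψ p.2.1 := by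
    ext ⟨I, x, rfl⟩
    rfl
  rw [e]
  refine HasSum.sigma_of_hasSum (hs.hasSum.mul_right _) k1 (Summable.of_norm ?_)
  simp only [norm_mul, Complex.norm_real, Real.norm_of_nonneg (h0 _)]
  refine (summable_sigma_of_nonneg fun p => mul_nonneg (norm_nonneg _) (h0 _)).2
    ⟨fun I => (k2 I).summable, ?_⟩
  simp only [(k2 _).tsum_eq]
  exact hs.norm.mul_right _

open Classical in
theorem lv_eq (x : 𝓞 K) (w : InfinitePlace K) : lv x w = co x w₀ * w.mult +
    ∑ i : Fin (rank K), co x (equivFinRank i).1 * completeBasis K (equivFinRank i).1 w := by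
  have h := congrFun ((completeBasis K).sum_equivFun (lv x)) w
  rw [Fintype.sum_eq_add_sum_subtype_ne _ w₀, ← equivFinRank.sum_comp, Pi.add_apply,
    Finset.sum_apply, completeBasis_apply_of_eq] at h
  exact h.symm

theorem log_norm {x : 𝓞 K} (hx : x ≠ 0) :
    Real.log (Ideal.absNorm (Ideal.span {x})) = Module.finrank ℚ K * co x w₀ := by
  have h1 : Real.log (Ideal.absNorm (Ideal.span {x})) = ∑ w, lv x w := by
    have := sum_expMap_symm_apply (RingOfIntegers.coe_ne_zero_iff.2 hx)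
    simp only [expMap_symm_apply, normAtAllPlaces_mixedEmbedding] at this
    rw [Ideal.absNorm_span_singleton, Nat.cast_natAbs, show ∑ w, lv x w = _ from this,
      ← Algebra.coe_norm_int]
    simp
  have h2 : ∀ i : Fin (rank K), ∑ w, completeBasis K (equivFinRank i).1 w = 0 := fun i => by
    rw [completeBasis_apply_of_ne, sum_expMap_symm_apply (coe_ne_zero _), Units.norm]
    simp
  simp only [h1, lv_eq x, Finset.sum_add_distrib, ← Finset.mul_sum]
  rw [Finset.sum_comm]
  simp only [← Finset.mul_sum, h2, mul_zero, Finset.sum_const_zero, add_zero]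
  rw [← Nat.cast_sum, sum_mult_eq, mul_comm]

theorem one_le_norm {x : 𝓞 K} (hx : x ≠ 0) : (1 : ℝ) ≤ Ideal.absNorm (Ideal.span {x}) := by
  rw [Nat.one_le_cast, Nat.one_le_iff_ne_zero, Ne, Ideal.absNorm_eq_zero_iff,
    Ideal.span_singleton_eq_bot]
  exact hx

theorem nz_eq {x : 𝓞 K} (hx : x ≠ 0) (s : ℝ) :
    nz (Ideal.span {x}) s = Real.exp (-(s * (Module.finrank ℚ K * co x w₀))) := by
  rw [nz, Real.rpow_def_of_pos (one_pos.trans_le (one_le_norm hx)), log_norm hx]
  congr 1
  ring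

theorem nz_bot {s : ℝ} (hs : 0 < s) : nz (⊥ : Ideal (𝓞 K)) s = 0 := by
  simp [nz, hs.ne']

theorem nz_nonneg (I : Ideal (𝓞 K)) (s : ℝ) : 0 ≤ nz I s := Real.rpow_nonneg (Nat.cast_nonneg _) _

theorem nz_le_one (x : 𝓞 K) {s : ℝ} (hs : 0 < s) : nz (Ideal.span {x}) s ≤ 1 := by
  by_cases hx : x = 0
  · simp [hx, nz_bot hs]
  · exact Real.rpow_le_one_of_one_le_of_nonpos (one_le_norm hx) (by linarith)

variable (K) in
theorem log_ge : ∃ A : ℝ, ∀ x : 𝓞 K, (∀ i, |co x (equivFinRank i).1| ≤ 1) →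
    ∀ w : InfinitePlace K, co x w₀ - A ≤ Real.log (w (x : K)) := by
  refine ⟨∑ i : Fin (rank K), ‖completeBasis K (equivFinRank i).1‖, fun x hx w => ?_⟩
  have h := lv_eq x w
  have h1 : (1 : ℝ) ≤ w.mult := one_le_mult
  have h2 : |∑ i : Fin (rank K), co x (equivFinRank i).1 * completeBasis K (equivFinRank i).1 w| ≤
      ∑ i : Fin (rank K), ‖completeBasis K (equivFinRank i).1‖ := by
    refine (Finset.abs_sum_le_sum_abs _ _).trans (Finset.sum_le_sum fun i _ => ?_)
    rw [abs_mul]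
    exact (mul_le_of_le_one_left (abs_nonneg _) (hx i)).trans
      (norm_le_pi_norm (completeBasis K (equivFinRank i).1) w)
  have h3 := (abs_nonneg _).trans h2
  rw [lv] at h
  nlinarith [neg_le_of_abs_le h2]

variable (K) in
theorem co_lip : ∃ L : ℝ, 0 ≤ L ∧ ∀ (x y : 𝓞 K) (η : ℝ), 0 ≤ η →
    (∀ w : InfinitePlace K, |Real.log (w (x : K)) - Real.log (w (y : K))| ≤ η) →
    ∀ j, |co x j - co y j| ≤ L * η := by
  let T : realSpace K →L[ℝ] realSpace K := (completeBasis K).equivFunL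
  refine ⟨‖T‖ * 2, by positivity, fun x y η h0 h j => ?_⟩
  have h1 : ‖lv x - lv y‖ ≤ 2 * η := by
    refine (pi_norm_le_iff_of_nonneg (by positivity)).2 fun w => ?_
    rw [Pi.sub_apply, lv, lv, ← mul_sub, Real.norm_eq_abs, abs_mul, Nat.abs_cast]
    refine mul_le_mul ?_ (h w) (abs_nonneg _) zero_le_two
    rw [mult]
    split_ifs <;> norm_num
  have h2 : co x - co y = T (lv x - lv y) := by rw [map_sub]; rfl
  rw [← Pi.sub_apply, h2, mul_assoc]
  exact (norm_le_pi_norm _ j).trans (T.le_opNorm_of_le h1)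

/-- the hat function -/
noncomputable def hat (t : ℝ) : ℝ := max 0 (1 - |t|)

theorem hat_nonneg (t : ℝ) : 0 ≤ hat t := le_max_left _ _

theorem hat_le (t : ℝ) : hat t ≤ 1 := max_le zero_le_one (by simp)

theorem hat_lip (t u : ℝ) : |hat t - hat u| ≤ |t - u| := by
  refine (abs_max_sub_max_le_max _ _ _ _).trans (max_le (by simp) ?_)
  rw [sub_sub_sub_cancel_left, abs_sub_comm t]
  exact abs_abs_sub_abs_le_abs_sub _ _

theorem hat_ne {t : ℝ} (h : hat t ≠ 0) : |t| < 1 := by
  by_contra h'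
  exact h (max_eq_left (by linarith [not_lt.1 h']))

theorem abs_prod_sub {ι : Type} (s : Finset ι) {a b : ι → ℝ} {ε : ℝ} (ha : ∀ i, |a i| ≤ 1)
    (hb : ∀ i, |b i| ≤ 1) (h : ∀ i, |a i - b i| ≤ ε) :
    |∏ i ∈ s, a i - ∏ i ∈ s, b i| ≤ s.card * ε := by
  classical
  induction s using Finset.induction_on with
  | empty => simp
  | insert i s hi ih =>
    have e : a i * ∏ i ∈ s, a i - b i * ∏ i ∈ s, b i =
      a i * (∏ i ∈ s, a i - ∏ i ∈ s, b i) + (a i - b i) * ∏ i ∈ s, b i := by ring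
    have hp : |∏ i ∈ s, b i| ≤ 1 := by
      rw [Finset.abs_prod]
      exact Finset.prod_le_one (fun _ _ => abs_nonneg _) fun i _ => hb i
    rw [Finset.prod_insert hi, Finset.prod_insert hi, Finset.card_insert_of_notMem hi, e]
    refine (abs_add_le _ _).trans ?_
    rw [abs_mul, abs_mul, Nat.cast_succ, add_mul, one_mul]
    exact add_le_add ((mul_le_of_le_one_left (abs_nonneg _) (ha i)).trans ih)
      ((mul_le_of_le_one_right (abs_nonneg _) hp).trans (h i))

theorem ps_nonneg {f : ℝ → ℝ} (h : ∀ t, 0 ≤ f t) (x : 𝓞 K) : 0 ≤ ps f x :=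
  Finset.prod_nonneg fun _ _ => h _

theorem ps_le (x : 𝓞 K) : ps hat x ≤ 1 :=
  Finset.prod_le_one (fun _ _ => hat_nonneg _) fun _ _ => hat_le _

/-- the weight -/
noncomputable def wt (s : ℝ) (x : 𝓞 K) : ℝ := nz (Ideal.span {x}) s * ps hat x

theorem wt_nonneg (s : ℝ) (x : 𝓞 K) : 0 ≤ wt s x :=
  mul_nonneg (nz_nonneg _ _) (ps_nonneg hat_nonneg _)

theorem wt_le {s : ℝ} (hs : 0 < s) (x : 𝓞 K) : wt s x ≤ 1 :=
  mul_le_one₀ (nz_le_one x hs) (ps_nonneg hat_nonneg _) (ps_le _)

variable (K) in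
theorem est {ρ : ℝ} (hρ : 0 ≤ ρ) : ∃ C : ℝ, 0 ≤ C ∧ ∀ s : ℝ, 1 ≤ s → s ≤ 2 → ∀ x y : 𝓞 K,
    (∀ w : InfinitePlace K, |w (x : K) - w (y : K)| ≤ ρ) → wt s x ≠ 0 →
    |wt s x - wt s y| ≤ C * nz (Ideal.span {x}) (1 + 1 / Module.finrank ℚ K) := by
  obtain ⟨A, hA⟩ := log_ge K
  obtain ⟨L, hL, hlip⟩ := co_lip K
  set n := Module.finrank ℚ K with hn
  have hn0 : (0 : ℝ) < n := Nat.cast_pos.2 Module.finrank_pos
  refine ⟨(rank K + 4 * n) * (L * (2 * (ρ * Real.exp A))) +
    ((2 + 4 * n * L) * (ρ * Real.exp A)) ^ (n + 1), by positivity, fun s h1 h2 x y hxy hx => ?_⟩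
  have hx0 : x ≠ 0 := by
    rintro rfl
    exact hx (by simp [wt, nz_bot (one_pos.trans_le h1)])
  have hA' := hA x fun i =>
    (hat_ne (Finset.prod_ne_zero_iff.1 (right_ne_zero_of_mul hx) i (Finset.mem_univ _))).le
  have hc : 0 ≤ n * co x w₀ := log_norm hx0 ▸ Real.log_nonneg (one_le_norm hx0)
  set E := Real.exp (-co x w₀) with hE
  have hE0 : 0 < E := Real.exp_pos _
  have e1 : nz (Ideal.span {x}) (1 + 1 / n) = E ^ (n + 1) := by
    rw [nz_eq hx0, ← Real.exp_nat_mul, ← hn]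
    congr 1
    push_cast
    field_simp
  set η := ρ * Real.exp A * E with hη
  have hη0 : 0 ≤ η := by positivity
  rw [e1, add_mul]
  rcases le_total ((2 + 4 * n * L) * η) 1 with h | h
  · refine le_add_of_le_of_nonneg ?_ (by positivity)
    have k0 : 0 ≤ n * L * η := by positivity
    have k1 : ∀ w : InfinitePlace K, |w (x : K) - w (y : K)| ≤ η * w (x : K) := by
      intro w
      refine (hxy w).trans ?_
      have := (Real.le_log_iff_exp_le (place_pos hx0 w)).1 (hA' w)
      calc ρ = η * Real.exp (co x w₀ - A) := by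
            rw [hη, mul_assoc, mul_assoc, hE, ← Real.exp_add, ← Real.exp_add,
              show A + (-co x w₀ + (co x w₀ - A)) = 0 by ring, Real.exp_zero, mul_one]
        _ ≤ _ := by gcongr
    have k2 : ∀ w : InfinitePlace K, w (x : K) ≤ 2 * w (y : K) := fun w => by
      nlinarith [le_of_abs_le (k1 w), place_pos hx0 w]
    have hy0 : y ≠ 0 := by
      rintro rfl
      have := k2 w₀
      simp only [map_zero, mul_zero] at this
      exact absurd (place_pos hx0 w₀) (not_lt.2 this)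
    have k3 := hlip x y (2 * η) (by positivity) fun w => by
      have hx' := place_pos hx0 w
      have hy' := place_pos hy0 w
      have a := Real.log_le_sub_one_of_pos (div_pos hx' hy')
      have b := Real.log_le_sub_one_of_pos (div_pos hy' hx')
      rw [Real.log_div hx'.ne' hy'.ne'] at a
      rw [Real.log_div hy'.ne' hx'.ne'] at b
      have a' : w (x : K) / w (y : K) ≤ 1 + 2 * η := by
        rw [div_le_iff₀ hy']
        nlinarith [le_of_abs_le (k1 w), k2 w]
      have b' : w (y : K) / w (x : K) ≤ 1 + η := by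
        rw [div_le_iff₀ hx']
        linarith [neg_le_of_abs_le (k1 w)]
      rw [abs_le]
      constructor <;> linarith
    have k4 : |ps hat x - ps hat y| ≤ rank K * (L * (2 * η)) := by
      simpa [ps] using abs_prod_sub Finset.univ
        (fun i => (abs_of_nonneg (hat_nonneg _)).le.trans (hat_le _))
        (fun i => (abs_of_nonneg (hat_nonneg _)).le.trans (hat_le _))
        fun i : Fin (rank K) => (hat_lip _ _).trans (k3 (equivFinRank i).1)
    have k5 : |s * (n * (co x w₀ - co y w₀))| ≤ 2 * (n * (L * (2 * η))) := by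
      rw [abs_mul, abs_mul, abs_of_nonneg (zero_le_one.trans h1), abs_of_pos hn0]
      gcongr
      exact k3 _
    have k6 := Real.abs_exp_sub_one_le (k5.trans (by nlinarith))
    have k7 : nz (Ideal.span {x}) s ≤ E ^ n := by
      rw [nz_eq hx0, ← Real.exp_nat_mul, Real.exp_le_exp]
      nlinarith
    have e2 : wt s x - wt s y = nz (Ideal.span {x}) s * ((ps hat x - ps hat y) -
        (Real.exp (s * (n * (co x w₀ - co y w₀))) - 1) * ps hat y) := by
      have : nz (Ideal.span {y}) s =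
          nz (Ideal.span {x}) s * Real.exp (s * (n * (co x w₀ - co y w₀))) := by
        rw [nz_eq hx0, nz_eq hy0, ← Real.exp_add]
        congr 1
        ring
      rw [wt, wt, this]
      ring
    rw [e2, abs_mul, abs_of_nonneg (nz_nonneg _ _)]
    calc _ ≤ E ^ n * (rank K * (L * (2 * η)) + 2 * (2 * (n * (L * (2 * η))))) := by
          gcongr
          refine (abs_sub _ _).trans (add_le_add k4 ?_)
          rw [abs_mul, abs_of_nonneg (ps_nonneg hat_nonneg y)]
          exact (mul_le_of_le_one_right (abs_nonneg _) (ps_le y)).trans (by linarith)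
      _ = _ := by rw [hη]; ring
  · refine le_add_of_nonneg_of_le (by positivity) ?_
    rw [← mul_pow, mul_assoc]
    refine le_trans ?_ (one_le_pow₀ h)
    have hs : 0 < s := one_pos.trans_le h1
    rw [abs_le]
    constructor <;> linarith [wt_nonneg s x, wt_nonneg s y, wt_le hs x, wt_le hs y]

/-- the indicator of a half open interval -/
noncomputable def box (t : ℝ) : ℝ := if -1 ≤ t ∧ t < 1 then 1 else 0

theorem box_nonneg (t : ℝ) : 0 ≤ box t := by
  rw [box]
  split_ifs <;> norm_num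

/-- the majorant -/
noncomputable def mj (x : 𝓞 K) : ℝ :=
  nz (Ideal.span {x}) (1 + 1 / Module.finrank ℚ K) * ps box x

theorem mj_nonneg (x : 𝓞 K) : 0 ≤ mj x := mul_nonneg (nz_nonneg _ _) (ps_nonneg box_nonneg _)

theorem est2 (r : 𝓞 K) : ∃ C : ℝ, ∀ s : ℝ, 1 ≤ s → s ≤ 2 → ∀ x : 𝓞 K,
    |wt s (x + r) - wt s x| ≤ C * (mj (x + r) + mj x) := by
  obtain ⟨C, h0, hC⟩ := est K (ρ := ∑ w : InfinitePlace K, w (r : K))
    (Finset.sum_nonneg fun w _ => apply_nonneg w _)
  refine ⟨C, fun s h1 h2 x => ?_⟩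
  have k : ∀ w : InfinitePlace K,
      |w ((x + r : 𝓞 K) : K) - w (x : K)| ≤ ∑ w : InfinitePlace K, w (r : K) := by
    intro w
    refine le_trans ?_ (Finset.single_le_sum (fun w _ => apply_nonneg w _) (Finset.mem_univ w))
    refine (w.1.abs_abv_sub_le_abv_sub ((x + r : 𝓞 K) : K) (x : K)).trans_eq ?_
    rw [show ((x + r : 𝓞 K) : K) - (x : K) = r by simp]
    rfl
  have m : ∀ x : 𝓞 K, wt s x ≠ 0 → nz (Ideal.span {x}) (1 + 1 / Module.finrank ℚ K) = mj x := by
    intro x hx
    rw [mj, ps, Finset.prod_eq_one, mul_one]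
    intro i _
    have := abs_lt.1
      (hat_ne (Finset.prod_ne_zero_iff.1 (right_ne_zero_of_mul hx) i (Finset.mem_univ _)))
    exact if_pos ⟨this.1.le, this.2⟩
  have a := mj_nonneg x
  have b := mj_nonneg (x + r)
  by_cases hx : wt s x = 0
  · by_cases hy : wt s (x + r) = 0
    · rw [hx, hy, sub_zero, abs_zero]
      positivity
    · refine (hC s h1 h2 _ _ k hy).trans ?_
      rw [m _ hy]
      gcongr
      linarith
  · rw [abs_sub_comm]
    refine (hC s h1 h2 _ _ (fun w => (abs_sub_comm _ _).trans_le (k w)) hx).trans ?_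
    rw [m _ hx]
    gcongr
    linarith

theorem rowAL : RowAL := by
  classical
  intro K _ _ Q Θ R _ hs hp hper hR hz
  choose ρ hρ hu using hR
  have hθ : ∀ a b : 𝓞 K, (Q : 𝓞 K) ∣ a - b → Θ (Ideal.span {a}) = Θ (Ideal.span {b}) := by
    rintro a b ⟨c, hc⟩
    rw [← hper b c, ← hc, add_sub_cancel]
  set B := ∑ r ∈ R, ‖Θ (Ideal.span {r})‖
  have hB : ∀ I, ‖Θ I‖ ≤ B := by
    intro I
    by_cases hI : I.IsPrincipal
    · obtain ⟨a, rfl⟩ := hI
      exact (hθ a _ (hρ a).2).symm ▸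
        Finset.single_le_sum (f := fun r => ‖Θ (Ideal.span {r})‖) (fun _ _ => norm_nonneg _) (hρ a).1
    · rw [hp I hI]
      exact (norm_zero.trans_le (Finset.sum_nonneg fun _ _ => norm_nonneg _))
  have hz' : ∀ x : 𝓞 K, ∑ r ∈ R, Θ (Ideal.span {x + r}) = 0 := by
    intro x
    rw [← hz]
    refine Finset.sum_nbij' (fun r => ρ (x + r)) (fun r => ρ (r - x)) (fun r _ => (hρ _).1)
      (fun r _ => (hρ _).1) (fun r hr => (hu _ r ⟨hr, ?_⟩).symm) (fun r hr => (hu _ r ⟨hr, ?_⟩).symm)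
      fun r _ => hθ _ _ (hρ _).2
    · have := (hρ (x + r)).2.neg_right
      convert this using 1
      ring
    · have := (hρ (r - x)).2.neg_right
      convert this using 1
      ring
  have hn : (0 : ℝ) < 1 / Module.finrank ℚ K := one_div_pos.2 (Nat.cast_pos.2 Module.finrank_pos)
  have hM : Summable (mj : 𝓞 K → ℝ) := by
    have := (hasSum_fiber (ps_nonneg box_nonneg)
      (fun x hx => hasSum_unit (f := box) (κ := 2) (fun t ht => by_contra fun h => ht (if_neg h))
        (fun t a b => by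
          rw [box, box, if_pos ⟨by linarith, b⟩, if_pos ⟨by linarith, by linarith⟩]; norm_num) hx)
      (h := fun I => if I.IsPrincipal then (nz I (1 + 1 / Module.finrank ℚ K) : ℂ) else 0)
      (Summable.of_norm_bounded (hs (1 + 1 / Module.finrank ℚ K) (by linarith)) fun I => by
        split_ifs
        · simp [abs_of_nonneg (nz_nonneg I _)]
        · simpa using nz_nonneg I _)
      (fun I hI => if_neg hI) (by rw [nz_bot (by linarith)]; simp)).summable
    refine Complex.summable_ofReal.1 (this.congr fun x => ?_)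
    rw [if_pos ⟨x, rfl⟩, mj, Complex.ofReal_mul]
  choose C hC using est2 (K := K)
  refine ⟨∑ r ∈ R, B * (C r * (∑' x : 𝓞 K, mj x + ∑' x : 𝓞 K, mj x)), fun s h1 h2 => ?_⟩
  have k1 := hasSum_fiber (ps_nonneg hat_nonneg)
    (fun x hx => hasSum_unit (f := hat) (κ := 1)
      (fun t ht => ⟨(abs_lt.1 (hat_ne ht)).1.le, (abs_lt.1 (hat_ne ht)).2⟩)
      (fun t a b => by
        rw [hat, hat, abs_of_nonneg a, abs_of_nonpos (by linarith), max_eq_right (by linarith),
          max_eq_right (by linarith)]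
        ring) hx)
    (h := fun I => Θ I * (nz I s : ℂ))
    (Summable.of_norm_bounded ((hs s h1).mul_left B) fun I => by
      rw [norm_mul, Complex.norm_real, Real.norm_of_nonneg (nz_nonneg I s)]
      exact mul_le_mul_of_nonneg_right (hB I) (nz_nonneg I s))
    (fun I hI => by rw [hp I hI, zero_mul]) (by rw [nz_bot (by linarith)]; simp)
  have k2 : ∀ r ∈ R, HasSum (fun x : 𝓞 K => Θ (Ideal.span {x + r}) * (wt s (x + r) : ℂ)) _ :=
    fun r _ => ((Equiv.addRight r).hasSum_iff.2 k1).congr_fun fun x => by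
      simp [wt, mul_assoc]
  have k3 : ∀ r ∈ R, HasSum (fun x : 𝓞 K => B * (C r * (mj (x + r) + mj x))) _ :=
    fun r _ => ((((Equiv.addRight r).hasSum_iff.2 hM.hasSum).add hM.hasSum).mul_left _).mul_left _
  refine le_trans ?_ ((hasSum_sum k2).norm_le_of_bounded (hasSum_sum k3) fun x => ?_)
  · have a : (1 : ℝ) ≤ R.card := Nat.one_le_cast.2 (Finset.card_pos.2 ⟨_, (hρ 0).1⟩)
    have b : (1 : ℝ) ≤ Nat.card (torsion K) := Nat.one_le_cast.2 Nat.card_pos
    rw [Finset.sum_const, nsmul_eq_mul, norm_mul, norm_mul, one_pow, mul_one, Complex.norm_natCast,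
      Complex.norm_real, Real.norm_natCast]
    exact (le_mul_of_one_le_right (norm_nonneg _) b).trans
      (le_mul_of_one_le_left (by positivity) a)
  · have e : ∑ r ∈ R, Θ (Ideal.span {x + r}) * (wt s (x + r) : ℂ) =
        ∑ r ∈ R, Θ (Ideal.span {x + r}) * ((wt s (x + r) - wt s x : ℝ) : ℂ) := by
      simp only [Complex.ofReal_sub, mul_sub, Finset.sum_sub_distrib, ← Finset.sum_mul, hz',
        zero_mul, sub_zero]
    rw [e]
    refine norm_sum_le_of_le _ fun r _ => ?_
    rw [norm_mul, Complex.norm_real]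
    exact mul_le_mul (hB _) (hC r s h1.le h2.le x) (norm_nonneg _) ((norm_nonneg _).trans (hB ⊥))

end Pool.Agent.MP_db5b97_nt.H36
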